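import Pool.Agent.H76.SuzB

set_option autoImplicit false

namespace Pool.Agent.Results.MP_ad7422_al.Unbounded

/-- The Fitting subgroup: the join of all normal nilpotent subgroups. -/
def fitting (G : Type) [Group G] : Subgroup G :=
  sSup {N : Subgroup G | N.Normal ∧ Group.IsNilpotent N}

/-- Arbitrarily large finite groups with nonabelian Fitting subgroup in which every irreducible
character vanishes on at most six conjugacy classes. -/
theorem result (n : ℕ) : ∃ (G : Type) (_ : Group G) (_ : Finite G), n < Nat.card G ∧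
    (∃ x ∈ fitting G, ∃ y ∈ fitting G, x * y ≠ y * x) ∧
    ∀ (V : Type) [AddCommGroup V] [Module ℂ V] [FiniteDimensional ℂ V]
      (ρ : Representation ℂ G V), ρ.IsIrreducible →
      {c : ConjClasses G | ∃ g, ConjClasses.mk g = c ∧ ρ.character g = 0}.ncard ≤ 6 := by
  refine ⟨H76.SuzB.Gp n, inferInstance, inferInstance, H76.SuzB.card_gt, ?_,
    fun V _ _ _ ρ hρ => H76.SuzB.zeros_le ρ hρ⟩
  have h : H76.SuzB.Pk n ≤ fitting (H76.SuzB.Gp n) :=
    le_sSup ⟨H76.SuzB.Pk_normal, H76.SuzB.Pk_nil⟩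
  refine ⟨⟨0, (1, 0, 0), 0, 0⟩, h ⟨rfl, rfl⟩, ⟨0, (0, 1, 0), 0, 0⟩, h ⟨rfl, rfl⟩, fun e => ?_⟩
  have := congrArg H76.SuzB.Gp.b e
  simp only [H76.SuzB.mul_def] at this
  revert this
  decide +kernel

end Pool.Agent.Results.MP_ad7422_al.Unbounded
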